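import Pool.Agent.MP_1048c2_an.QdAll

namespace Pool.Agent.Results.MP_1048c2_an.AllSolutionsPTwo

open Pool.Agent.MP_1048c2_an MeasureTheory

theorem result {m k : ℕ} {H V : Type} [NormedAddCommGroup H] [InnerProductSpace ℝ H]
    [FiniteDimensional ℝ H] [MeasurableSpace H] [BorelSpace H] [NormedAddCommGroup V]
    [InnerProductSpace ℝ V] [FiniteDimensional ℝ V] [MeasurableSpace V] [BorelSpace V]
    (G : HeisenbergType m k H V) (hk : 0 < k) (R : ℝ) (hR : 0 < R) :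
    (∀ (Ω : Set (H × V)) (f : H × V → ℝ) (g : Fin m → H × V → ℝ),
      IsOpen Ω → Bornology.IsBounded Ω → IsSobolevPotential G 2 Ω f g →
      (∀ᵐ x, x ∉ closure Ω →
        weakP k 2 f g x = cConst m k 2 R ^ (2 : ℝ) * ‖x.1‖ ^ (2 : ℝ)) →
      ∃ (B : H →L[ℝ] H) (c : ℝ) (σ₀ : V), Admissible G B c ∧
        interior (closure Ω) = {x | quartic B c σ₀ x < R ^ 4} ∧
        ∀ x ∉ closure Ω, f x = (quartic B c σ₀ x / R ^ 4) ^ (-(homDim m k - 2) / 4)) ∧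
    (∀ (B : H →L[ℝ] H) (c : ℝ) (σ₀ : V) (Ω : Set (H × V)) (f : H × V → ℝ),
      Admissible G B c → Ω = {x | quartic B c σ₀ x < R ^ 4} →
      (f = fun x => (quartic B c σ₀ x / R ^ 4) ^ (-(homDim m k - 2) / 4)) →
      IsOpen Ω ∧ IsConnected Ω ∧ Bornology.IsBounded Ω ∧ interior (closure Ω) = Ω ∧
        IsSobolevPotential G 2 Ω f (fun i => X G i f) ∧
        (∀ x ∉ closure Ω,
          weakP k 2 f (fun i => X G i f) x = cConst m k 2 R ^ (2 : ℝ) * ‖x.1‖ ^ (2 : ℝ)) ∧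
        (∀ (B' : H →L[ℝ] H) (c' : ℝ) (σ' : V) (R' : ℝ), Admissible G B' c' → 0 < R' →
          Ω = {x | quartic B' c' σ' x < R' ^ 4} → B' = B ∧ c' = c ∧ σ' = σ₀ ∧ R' = R) ∧
        ((∃ (R' : ℝ) (σ' : V), Ω = gaugeBall R' σ') ↔ B = 0)) :=
  Cl.all_two G hk hR

end Pool.Agent.Results.MP_1048c2_an.AllSolutionsPTwo
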