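import Pool.Agent.Mg.F1048c2.G6f43d1

namespace Pool.Agent.Results.MP_1048c2_an.CapacitaryCounterexample

open Pool.Agent.MP_1048c2_an

theorem result :
    ∃ (G : HeisenbergType 4 1 (EuclideanSpace ℝ (Fin 4)) ℝ) (p : ℝ),
      p = 2 ∧ 1 < p ∧ p < homDim 4 1 ∧
      ∃ (Ω : Set (EuclideanSpace ℝ (Fin 4) × ℝ)) (f : EuclideanSpace ℝ (Fin 4) × ℝ → ℝ) (R : ℝ),
        IsSmoothBoundedDomain Ω ∧ IsCapacitaryPotential G p Ω f ∧ 0 < R ∧ PIdentity G p R Ω f ∧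
        ∀ (R' σ₀ : ℝ), closure Ω ≠ closure (gaugeBall R' σ₀) := by
  obtain ⟨G, Ω, f, R, h⟩ := main
  exact ⟨G, 2, rfl, by norm_num, by norm_num [homDim], Ω, f, R, h⟩

end Pool.Agent.Results.MP_1048c2_an.CapacitaryCounterexample
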