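import Pool.Agent.MP_1048c2_an.Mg.All

namespace Pool.Agent.Results.MP_1048c2_an.Classification

open Pool.Agent.MP_1048c2_an MeasureTheory

theorem result {m k : ℕ} {H V : Type} [NormedAddCommGroup H] [InnerProductSpace ℝ H]
    [FiniteDimensional ℝ H] [MeasurableSpace H] [BorelSpace H] [NormedAddCommGroup V]
    [InnerProductSpace ℝ V] [FiniteDimensional ℝ V] [MeasurableSpace V] [BorelSpace V]
    (G : HeisenbergType m k H V) (hk : 0 < k) (p : ℝ) (hp : 1 < p) (hQ : p < homDim m k) :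
    (¬(p = 2 ∧ ∃ K : Submodule ℝ H,
        (∀ σ, ∀ z ∈ K, G.J σ z ∈ K) ∧ 2 * Module.finrank ℝ K = m) →
      ∀ (Ω : Set (H × V)) (f : H × V → ℝ) (g : Fin m → H × V → ℝ) (R : ℝ),
        IsOpen Ω → Bornology.IsBounded Ω → IsSobolevPotential G p Ω f g → 0 < R →
        (∀ᵐ x, x ∉ closure Ω → weakP k p f g x = cConst m k p R ^ p * ‖x.1‖ ^ p) →
        ∃ σ₀ : V, interior (closure Ω) = gaugeBall R σ₀) ∧
    ((p = 2 ∧ ∃ K : Submodule ℝ H,
        (∀ σ, ∀ z ∈ K, G.J σ z ∈ K) ∧ 2 * Module.finrank ℝ K = m) →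
      ∃ (Ω : Set (H × V)) (f : H × V → ℝ) (R : ℝ), IsSmoothBoundedDomain Ω ∧
        (∀ n : ℕ, ContDiffOn ℝ n f (closure Ω)ᶜ) ∧
        IsSobolevPotential G p Ω f (fun i => X G i f) ∧ 0 < R ∧
        (∀ x ∉ closure Ω,
          weakP k p f (fun i => X G i f) x = cConst m k p R ^ p * ‖x.1‖ ^ p) ∧
        ∀ (R' : ℝ) (σ₀ : V), interior (closure Ω) ≠ gaugeBall R' σ₀) := by
  refine ⟨fun h _ _ _ _ h1 h2 h3 h4 h5 => Cl.rigid G hk hp hQ h h1 h2 h3 h4 h5, ?_⟩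
  rintro ⟨rfl, h⟩
  exact Cl.counter G hk h

end Pool.Agent.Results.MP_1048c2_an.Classification
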